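import Mathlib
import Pool.Agent.Helper53.CTG.Goals

/-!
# Project CTG, packet KX: frame and exactness, one level up
-/

namespace Pool.Agent.Helper20.CTG

open Pool.Agent.Helper1.TE (Gad app cif)
open Pool.Agent.Helper53.CTG
open Finset

section
variable {Z : Type} {g : Gad Z} {tst : ℕ → ℕ} {t : ℕ → ℕ → ℕ → ℕ → ℕ → ℕ} {q c : ℕ}

theorem app_V (h : OK9 g) {T v : ℕ} (hv : v < g.K) {z z' : Z} (hz : g.V z)
    (ha : app g tst T v z = some z') : g.V z' := by
  unfold app at ha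
  split_ifs at ha with h1 h2 h3
  · cases ha
    exact hz
  · cases ha
    exact h.hd_V v hv z hz
  · exact h.un_V v hv z z' hz ha

theorem shl_V (h : OK9 g) : ∀ (l : List ℕ), (∀ a ∈ l, a < g.K) → ∀ z, g.V z → g.V (shl g l z)
  | [], _, z, hz => hz
  | a :: l, hl, z, hz => by
    have h1 := shl_V h l (fun b hb => hl b (List.mem_cons_of_mem _ hb)) (g.sh a z)
      (h.sh_V a (hl a List.mem_cons_self) z hz)
    exact h1

theorem shl_append (l l' : List ℕ) (z : Z) : shl g (l ++ l') z = shl g l' (shl g l z) := by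
  unfold shl
  rw [List.foldl_append]

theorem shl_one (a : ℕ) (z : Z) : g.sh a z = shl g [a] z := rfl

theorem gA_lt {K G : ℕ} (hK : 1 ≤ K) (h : G < K ^ 3) : gA K G < K := by
  unfold gA
  rw [Nat.div_lt_iff_lt_mul (by positivity)]
  calc G < K ^ 3 := h
    _ = K * K ^ 2 := by ring

theorem enc_eq (K G : ℕ) : enc K (gA K G) (gY K G) (gZ K G) = G := by
  unfold enc gA gY gZ
  have h1 : G / K ^ 2 = G / K / K := by rw [pow_two, Nat.div_div_eq_div_mul]
  have h2 := Nat.div_add_mod G K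
  have h3 := Nat.div_add_mod (G / K) K
  rw [h1]
  calc G / K / K * K ^ 2 + G / K % K * K + G % K =
      K * (K * (G / K / K) + G / K % K) + G % K := by ring
    _ = G := by rw [h3, h2]

theorem g0 {K G : ℕ} (hK : 1 ≤ K) (h : G % K ^ 2 = 0) : gY K G = 0 ∧ gZ K G = 0 := by
  obtain ⟨a, rfl⟩ := Nat.dvd_of_mod_eq_zero h
  constructor
  · unfold gY
    rw [pow_two, mul_assoc, Nat.mul_div_cancel_left _ hK, Nat.mul_mod_right]
  · unfold gZ
    rw [pow_two, mul_assoc, Nat.mul_mod_right]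

/-- elementary steps with the table 0 -/
theorem st0 (hE : Elem) (hg : OK9 g) {e v T n : ℕ} {γ : ℕ → ℕ} (hγ : ∀ τ, γ τ < g.K ^ 3)
    {C : ℕ → Z} {A : ℕ} {s' : (ℕ → Z) × ℕ}
    (h : Rn g tst t q c (3, 0, e, 0, v, e + 3, T) n γ (C, A) = some s') :
    ∃ a < g.K, γ 0 = enc g.K a 0 0 ∧ (∀ τ, 0 < τ → τ < 13 ^ n → γ τ = 0) ∧
      ∃ z, app g tst T (t 0 v a 0 0) (C (e + 3)) = some z ∧ s'.2 = A ∧
      s'.1 e = g.sh a (C e) ∧ s'.1 (e + 3) = z ∧ ∀ j, j ≠ e → j ≠ e + 3 → s'.1 j = C j := by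
  obtain ⟨h1, h0⟩ := (hE.1 g tst t q c _ n _ _ _ (Or.inr (by
    change (3 : ℕ) ≠ 0
    norm_num))).1 h
  have h2 : (if nrm g.K 0 (γ 0) then
      (app g tst T (t 0 v (gA g.K (γ 0)) (gY g.K (γ 0)) (gZ g.K (γ 0))) (C (e + 3))).map
        (fun z => ((Function.update (Function.update C e (g.sh (gA g.K (γ 0)) (C e)))
          (e + 3) z, A) : (ℕ → Z) × ℕ)) else none) = some s' := h1
  split_ifs at h2 with hn
  obtain ⟨hy, hz⟩ := g0 hg.K_pos (hn.1 rfl)
  have he := enc_eq g.K (γ 0)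
  rw [hy, hz] at h2 he
  rw [Option.map_eq_some_iff] at h2
  obtain ⟨z, hz, rfl⟩ := h2
  refine ⟨gA g.K (γ 0), gA_lt hg.K_pos (hγ 0), he.symm, h0, z, hz, rfl, ?_, ?_, ?_⟩
  · change Function.update (Function.update C e (g.sh (gA g.K (γ 0)) (C e))) (e + 3) z e = _
    rw [Function.update_of_ne (by omega), Function.update_self]
  · exact Function.update_self _ _ _
  · intro j h3 h4
    change Function.update (Function.update C e (g.sh (gA g.K (γ 0)) (C e))) (e + 3) z j = _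
    rw [Function.update_of_ne h4, Function.update_of_ne h3]

/-- elementary steps with the table 1 -/
theorem st1 (hE : Elem) (hg : OK9 g) {e v T n : ℕ} {γ : ℕ → ℕ} (hγ : ∀ τ, γ τ < g.K ^ 3)
    {C : ℕ → Z} {A : ℕ} {s' : (ℕ → Z) × ℕ}
    (h : Rn g tst t q c (3, 1, e, e + 1, v, e + 3, T) n γ (C, A) = some s') :
    ∃ a < g.K, ∃ y < g.K, γ 0 = enc g.K a y 0 ∧ (∀ τ, 0 < τ → τ < 13 ^ n → γ τ = 0) ∧
      ∃ z, app g tst T (t 1 v a y 0) (C (e + 3)) = some z ∧ s'.2 = A ∧
      s'.1 e = g.sh a (C e) ∧ s'.1 (e + 1) = g.sh y (C (e + 1)) ∧ s'.1 (e + 3) = z ∧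
      ∀ j, j ≠ e → j ≠ e + 1 → j ≠ e + 3 → s'.1 j = C j := by
  obtain ⟨h1, h0⟩ := (hE.1 g tst t q c _ n _ _ _ (Or.inr (by
    change (3 : ℕ) ≠ 0
    norm_num))).1 h
  have h2 : (if nrm g.K 1 (γ 0) then
      (app g tst T (t 1 v (gA g.K (γ 0)) (gY g.K (γ 0)) (gZ g.K (γ 0))) (C (e + 3))).map
        (fun z => ((Function.update (Function.update (Function.update C e
          (g.sh (gA g.K (γ 0)) (C e))) (e + 1) (g.sh (gY g.K (γ 0)) (C (e + 1))))
          (e + 3) z, A) : (ℕ → Z) × ℕ)) else none) = some s' := h1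
  split_ifs at h2 with hn
  have hz : gZ g.K (γ 0) = 0 := hn.2 rfl
  have he := enc_eq g.K (γ 0)
  rw [hz] at h2 he
  rw [Option.map_eq_some_iff] at h2
  obtain ⟨z, hz, rfl⟩ := h2
  refine ⟨gA g.K (γ 0), gA_lt hg.K_pos (hγ 0), gY g.K (γ 0), Nat.mod_lt _ hg.K_pos, he.symm, h0,
    z, hz, rfl, ?_, ?_, ?_, ?_⟩
  · change Function.update (Function.update (Function.update C e
      (g.sh (gA g.K (γ 0)) (C e))) (e + 1) (g.sh (gY g.K (γ 0)) (C (e + 1)))) (e + 3) z e = _
    rw [Function.update_of_ne (by omega), Function.update_of_ne (by omega),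
      Function.update_self]
  · change Function.update (Function.update (Function.update C e
      (g.sh (gA g.K (γ 0)) (C e))) (e + 1) (g.sh (gY g.K (γ 0)) (C (e + 1)))) (e + 3) z
      (e + 1) = _
    rw [Function.update_of_ne (by omega), Function.update_self]
  · exact Function.update_self _ _ _
  · intro j h3 h4 h5
    change Function.update (Function.update (Function.update C e
      (g.sh (gA g.K (γ 0)) (C e))) (e + 1) (g.sh (gY g.K (γ 0)) (C (e + 1)))) (e + 3) z j = _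
    rw [Function.update_of_ne h5, Function.update_of_ne h4, Function.update_of_ne h3]

/-- the elementary step with the table 2 -/
theorem st2 (hE : Elem) (hg : OK9 g) {e v i T n : ℕ} {γ : ℕ → ℕ} (hγ : ∀ τ, γ τ < g.K ^ 3)
    {C : ℕ → Z} {A : ℕ} {s' : (ℕ → Z) × ℕ} (hi0 : i ≠ e) (hi1 : i ≠ e + 1) (hi2 : i ≠ e + 2)
    (h : Rn g tst t q c (3, 2, e, e + 1, v, i, T) n γ (C, A) = some s') :
    ∃ a < g.K, ∃ y < g.K, ∃ w < g.K, γ 0 = enc g.K a y w ∧
      (∀ τ, 0 < τ → τ < 13 ^ n → γ τ = 0) ∧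
      ∃ z, app g tst T (t 2 v a y w) (C i) = some z ∧ s'.2 = A ∧
      s'.1 e = g.sh a (C e) ∧ s'.1 (e + 1) = shl g (List.replicate 5 y) (C (e + 1)) ∧
      s'.1 (e + 2) = shl g (List.replicate 9 w) (C (e + 2)) ∧ s'.1 i = z ∧
      ∀ j, j ≠ e → j ≠ e + 1 → j ≠ e + 2 → j ≠ i → s'.1 j = C j := by
  obtain ⟨h1, h0⟩ := (hE.1 g tst t q c _ n _ _ _ (Or.inr (by
    change (3 : ℕ) ≠ 0
    norm_num))).1 h
  have h2 : (if nrm g.K 2 (γ 0) then
      (app g tst T (t 2 v (gA g.K (γ 0)) (gY g.K (γ 0)) (gZ g.K (γ 0))) (C i)).map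
        (fun z => ((Function.update (Function.update (Function.update (Function.update C e
          (g.sh (gA g.K (γ 0)) (C e))) (e + 1)
          (shl g (List.replicate 5 (gY g.K (γ 0))) (C (e + 1)))) (e + 2)
          (shl g (List.replicate 9 (gZ g.K (γ 0))) (C (e + 2)))) i z, A) :
          (ℕ → Z) × ℕ)) else none) = some s' := h1
  split_ifs at h2 with hn
  rw [Option.map_eq_some_iff] at h2
  obtain ⟨z, hz, rfl⟩ := h2
  refine ⟨gA g.K (γ 0), gA_lt hg.K_pos (hγ 0), gY g.K (γ 0), Nat.mod_lt _ hg.K_pos,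
    gZ g.K (γ 0), Nat.mod_lt _ hg.K_pos, (enc_eq g.K (γ 0)).symm, h0, z, hz, rfl,
    ?_, ?_, ?_, ?_, ?_⟩
  · change Function.update (Function.update (Function.update (Function.update C e
          (g.sh (gA g.K (γ 0)) (C e))) (e + 1)
          (shl g (List.replicate 5 (gY g.K (γ 0))) (C (e + 1)))) (e + 2)
          (shl g (List.replicate 9 (gZ g.K (γ 0))) (C (e + 2)))) i z e = _
    rw [Function.update_of_ne hi0.symm, Function.update_of_ne (by omega),
      Function.update_of_ne (by omega), Function.update_self]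
  · change Function.update (Function.update (Function.update (Function.update C e
          (g.sh (gA g.K (γ 0)) (C e))) (e + 1)
          (shl g (List.replicate 5 (gY g.K (γ 0))) (C (e + 1)))) (e + 2)
          (shl g (List.replicate 9 (gZ g.K (γ 0))) (C (e + 2)))) i z (e + 1) = _
    rw [Function.update_of_ne hi1.symm, Function.update_of_ne (by omega),
      Function.update_self]
  · change Function.update (Function.update (Function.update (Function.update C e
          (g.sh (gA g.K (γ 0)) (C e))) (e + 1)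
          (shl g (List.replicate 5 (gY g.K (γ 0))) (C (e + 1)))) (e + 2)
          (shl g (List.replicate 9 (gZ g.K (γ 0))) (C (e + 2)))) i z (e + 2) = _
    rw [Function.update_of_ne hi2.symm, Function.update_self]
  · exact Function.update_self _ _ _
  · intro j h3 h4 h5 h6
    change Function.update (Function.update (Function.update (Function.update C e
          (g.sh (gA g.K (γ 0)) (C e))) (e + 1)
          (shl g (List.replicate 5 (gY g.K (γ 0))) (C (e + 1)))) (e + 2)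
          (shl g (List.replicate 9 (gZ g.K (γ 0))) (C (e + 2)))) i z j = _
    rw [Function.update_of_ne h6, Function.update_of_ne h5, Function.update_of_ne h4,
      Function.update_of_ne h3]

/-- undoing after nine guesses -/
theorem undo (hg : OK9 g) {p : ℕ} (hp : p < g.K) {l : List ℕ} (hl : l.length = 9)
    (hlK : ∀ a ∈ l, a < g.K) {z z' : Z} (hz : g.V z)
    (h : g.un p (shl g l (g.hd p z)) = some z') : (∀ a ∈ l, a = p) ∧ z' = z := by
  have h1 := hg.sound9 p hp l hl hlK z hz (by rw [h]; rfl)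
  refine ⟨h1, ?_⟩
  have h2 := hg.ok9 p hp z hz
  rw [← List.eq_replicate_iff.2 ⟨hl, h1⟩, h] at h2
  exact Option.some.inj h2

theorem undo' (hg : OK9 g) {p : ℕ} (hp : p < g.K) {z z' : Z} (hz : g.V z)
    (h : g.un p (shl g (List.replicate 9 p) (g.hd p z)) = some z') : z' = z := by
  rw [hg.ok9 p hp z hz] at h
  exact (Option.some.inj h).symm

end

theorem ev_lt {K q c : ℕ} {t : ℕ → ℕ → ℕ → ℕ → ℕ → ℕ} (hb : ∀ m v x y z, t m v x y z < K) :
    ∀ n v x : ℕ, ev t q c n v x < K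
  | 0, _, _ => hb _ _ _ _ _
  | _ + 1, _, _ => hb _ _ _ _ _

theorem can_succ (K : ℕ) (t : ℕ → ℕ → ℕ → ℕ → ℕ → ℕ) (q c m u v X d τ : ℕ) (hu : 1 ≤ u)
    (huq : u < q) (hτ : τ < 13 ^ ((q + 1) * m + u)) :
    can K t q c ((q + 1) * m + u + 1) v X (d * 13 ^ ((q + 1) * m + u) + τ) =
      if d = 1 ∨ d = 11 then can K t q c ((q + 1) * m + u) (2 * v) (t 0 v X 0 0) τ
      else if d = 4 ∨ d = 8 then can K t q c ((q + 1) * m + u) (2 * v + 1)
        (t 1 v X (ev t q c (q * m + u) (2 * v) (t 0 v X 0 0)) 0) τ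
      else if τ ≠ 0 then 0
      else if d = 0 ∨ d = 2 ∨ d = 10 ∨ 12 ≤ d then enc K X 0 0
      else if d = 6 then enc K X (ev t q c (q * m + u) (2 * v) (t 0 v X 0 0))
        (ev t q c (q * m + u) (2 * v + 1)
          (t 1 v X (ev t q c (q * m + u) (2 * v) (t 0 v X 0 0)) 0))
      else enc K X (ev t q c (q * m + u) (2 * v) (t 0 v X 0 0)) 0 := by
  have hd : (d * 13 ^ ((q + 1) * m + u) + τ) / 13 ^ ((q + 1) * m + u) = d := by
    rw [Nat.mul_comm, Nat.mul_add_div (by positivity), Nat.div_eq_of_lt hτ, add_zero]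
  have hm : (d * 13 ^ ((q + 1) * m + u) + τ) % 13 ^ ((q + 1) * m + u) = τ := by
    rw [Nat.mul_comm, Nat.mul_add_mod, Nat.mod_eq_of_lt hτ]
  have h1 : ((q + 1) * m + u) % (q + 1) = u := by
    rw [Nat.mul_add_mod, Nat.mod_eq_of_lt (by omega)]
  have h2 : ((q + 1) * m + u) / (q + 1) = m := by
    rw [Nat.mul_add_div (by omega), Nat.div_eq_of_lt (by omega), add_zero]
  have h3 : (q * m + u) % q = u := by
    rw [Nat.mul_add_mod, Nat.mod_eq_of_lt huq]
  have h4 : ∀ y, cut q c (q * m + u) y = y := fun y => if_neg (by rw [h3]; omega)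
  rw [can]
  simp only [hd, hm, h1, h2, h4]
  rw [if_neg (by omega : ¬ u = q)]

/-- **Packet KX.** -/
theorem gKX : GoalKX := by
  intro hB hE Z g hg tst t q c m u hT hu huq hKX γ v i T C A x z₀ s' hγ hV hx hz₀ hCe hi hrun
  obtain ⟨hT1, -⟩ := hT
  set e : ℕ := 3 * (q - (u + 1)) with he
  have he3 : 3 * (q - u) = e + 3 := by omega
  have hK : 1 ≤ g.K := hg.K_pos
  have hie : i ≠ e ∧ i ≠ e + 1 ∧ i ≠ e + 2 ∧ i ≠ e + 3 := by
    unfold BR at hi
    rcases hi with h | h | h <;> omega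
  have hi' : i < e + 3 ∨ BR q (m + 1) i := by
    rcases hi with h | h
    · left
      omega
    · exact Or.inr h
  have KX' : ∀ (γ : ℕ → ℕ) (v i T : ℕ) (C : ℕ → Z) (A x : ℕ) (z₀ : Z) (s' : (ℕ → Z) × ℕ),
      (∀ τ, γ τ < g.K ^ 3) → (∀ j, g.V (C j)) → x < g.K → g.V z₀ → C (e + 3) = g.hd x z₀ →
      (i < e + 3 ∨ BR q (m + 1) i) →
      Rn g tst t q c (nod v i T) ((q + 1) * m + u) γ (C, A) = some s' →
      s'.2 = A ∧ (∀ j, g.V (s'.1 j)) ∧ (∀ j < e + 3, j ≠ i → s'.1 j = C j) ∧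
      ((g.un x (s'.1 (e + 3))).isSome →
        (∀ τ < 13 ^ ((q + 1) * m + u), γ τ = can g.K t q c ((q + 1) * m + u) v x τ) ∧
        ∃ z, app g tst T (ev t q c (q * m + u) v x) (C i) = some z ∧
          s'.1 = Function.update (Function.update C i z) (e + 3)
            (shl g (List.replicate 9 x) (C (e + 3)))) := by
    intro γ v i T C A x z₀ s' h1 h2 h3 h4 h5 h6 h7
    have h8 := hKX γ v i T C A x z₀ s' h1 h2 h3 h4 (by rw [he3]; exact h5)
      (by rw [he3]; exact h6) h7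
    rw [he3] at h8
    exact h8
  have hrun' : Rn g tst t q c (nod v i T) ((q + 1) * m + u + 1) γ (C, A) = some s' := hrun
  obtain ⟨f, hf0, hf13, hf⟩ := (hB g tst t q c _ _ _ _ _).1 hrun'
  have hsub : ∀ d, sub q (nod v i T) ((q + 1) * m + u) d = phK e v i T d := fun d =>
    hE.2.1 q m u v i T d hu huq
  simp only [hsub] at hf
  have shV : ∀ a < g.K, ∀ z, g.V z → g.V (g.sh a z) := hg.sh_V
  have hγd : ∀ d τ, (fun τ => γ (d * 13 ^ ((q + 1) * m + u) + τ)) τ < g.K ^ 3 :=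
    fun d τ => hγ _
  have rpK : ∀ n : ℕ, ∀ y < g.K, ∀ a ∈ List.replicate n y, a < g.K := fun n y hy a ha => by
    rw [List.eq_of_mem_replicate ha]
    exact hy
  -- validity
  have val3 : ∀ {D D' : ℕ → Z}, (∀ j, g.V (D j)) → g.V (D' e) → g.V (D' (e + 3)) →
      (∀ j, j ≠ e → j ≠ e + 3 → D' j = D j) → ∀ j, g.V (D' j) := by
    intro D D' h0 h1 h2 h3 j
    by_cases a : j = e
    · rw [a]; exact h1
    by_cases b : j = e + 3
    · rw [b]; exact h2
    rw [h3 j a b]
    exact h0 j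
  have val4 : ∀ {D D' : ℕ → Z}, (∀ j, g.V (D j)) → g.V (D' e) → g.V (D' (e + 1)) →
      g.V (D' (e + 3)) → (∀ j, j ≠ e → j ≠ e + 1 → j ≠ e + 3 → D' j = D j) →
      ∀ j, g.V (D' j) := by
    intro D D' h0 h1 h1' h2 h3 j
    by_cases a : j = e
    · rw [a]; exact h1
    by_cases a' : j = e + 1
    · rw [a']; exact h1'
    by_cases b : j = e + 3
    · rw [b]; exact h2
    rw [h3 j a a' b]
    exact h0 j
  -- phase 0
  have r0 : Rn g tst t q c (3, 0, e, 0, v, e + 3, 1) ((q + 1) * m + u)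
      (fun τ => γ (0 * 13 ^ ((q + 1) * m + u) + τ)) (C, A) = some (f 1) := by
    have := hf 0 (by norm_num)
    rw [hf0] at this
    exact this
  obtain ⟨a0, ha0, G0, N0, z0, k0, b0, c0e, c0z, c0⟩ := st0 hE hg (hγd 0) r0
  have k0' : z0 = g.hd (t 0 v a0 0 0) (C (e + 3)) := (Option.some.inj k0).symm
  have V1 : ∀ j, g.V ((f 1).1 j) := val3 hV (by rw [c0e]; exact shV a0 ha0 _ (hV _))
    (by rw [c0z]; exact app_V hg (hT1 _ _ _ _ _) (hV _) k0) c0
  -- phase 1
  have r1 : Rn g tst t q c (nod (2 * v) (e + 1) 1) ((q + 1) * m + u)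
      (fun τ => γ (1 * 13 ^ ((q + 1) * m + u) + τ)) ((f 1).1, (f 1).2) = some (f 2) :=
    hf 1 (by norm_num)
  obtain ⟨b1, V2, fr1, ex1⟩ := KX' _ _ _ _ _ _ _ _ _ (hγd 1) V1 (hT1 0 v a0 0 0) (hV (e + 3))
    (by rw [c0z, k0']) (Or.inl (by omega)) r1
  -- phase 2
  have r2 : Rn g tst t q c (3, 0, e, 0, v, e + 3, 2) ((q + 1) * m + u)
      (fun τ => γ (2 * 13 ^ ((q + 1) * m + u) + τ)) ((f 2).1, (f 2).2) = some (f 3) :=
    hf 2 (by norm_num)
  obtain ⟨a2, ha2, G2, N2, z2, k2, b2, c2e, c2z, c2⟩ := st0 hE hg (hγd 2) r2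
  have V3 : ∀ j, g.V ((f 3).1 j) := val3 V2 (by rw [c2e]; exact shV a2 ha2 _ (V2 _))
    (by rw [c2z]; exact app_V hg (hT1 _ _ _ _ _) (V2 _) k2) c2
  -- phase 3
  have r3 : Rn g tst t q c (3, 1, e, e + 1, v, e + 3, 1) ((q + 1) * m + u)
      (fun τ => γ (3 * 13 ^ ((q + 1) * m + u) + τ)) ((f 3).1, (f 3).2) = some (f 4) :=
    hf 3 (by norm_num)
  obtain ⟨a3, ha3, y3, hy3, G3, N3, z3, k3, b3, c3e, c3f, c3z, c3⟩ := st1 hE hg (hγd 3) r3
  have k3' : z3 = g.hd (t 1 v a3 y3 0) ((f 3).1 (e + 3)) := (Option.some.inj k3).symm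
  have V4 : ∀ j, g.V ((f 4).1 j) := val4 V3 (by rw [c3e]; exact shV a3 ha3 _ (V3 _))
    (by rw [c3f]; exact shV y3 hy3 _ (V3 _))
    (by rw [c3z]; exact app_V hg (hT1 _ _ _ _ _) (V3 _) k3) c3
  -- phase 4
  have r4 : Rn g tst t q c (nod (2 * v + 1) (e + 2) 1) ((q + 1) * m + u)
      (fun τ => γ (4 * 13 ^ ((q + 1) * m + u) + τ)) ((f 4).1, (f 4).2) = some (f 5) :=
    hf 4 (by norm_num)
  obtain ⟨b4, V5, fr4, ex4⟩ := KX' _ _ _ _ _ _ _ _ _ (hγd 4) V4 (hT1 1 v a3 y3 0)
    (V3 (e + 3)) (by rw [c3z, k3']) (Or.inl (by omega)) r4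
  -- phase 5
  have r5 : Rn g tst t q c (3, 1, e, e + 1, v, e + 3, 2) ((q + 1) * m + u)
      (fun τ => γ (5 * 13 ^ ((q + 1) * m + u) + τ)) ((f 5).1, (f 5).2) = some (f 6) :=
    hf 5 (by norm_num)
  obtain ⟨a5, ha5, y5, hy5, G5, N5, z5, k5, b5, c5e, c5f, c5z, c5⟩ := st1 hE hg (hγd 5) r5
  have V6 : ∀ j, g.V ((f 6).1 j) := val4 V5 (by rw [c5e]; exact shV a5 ha5 _ (V5 _))
    (by rw [c5f]; exact shV y5 hy5 _ (V5 _))
    (by rw [c5z]; exact app_V hg (hT1 _ _ _ _ _) (V5 _) k5) c5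
  -- phase 6
  have r6 : Rn g tst t q c (3, 2, e, e + 1, v, i, T) ((q + 1) * m + u)
      (fun τ => γ (6 * 13 ^ ((q + 1) * m + u) + τ)) ((f 6).1, (f 6).2) = some (f 7) :=
    hf 6 (by norm_num)
  obtain ⟨a6, ha6, y6, hy6, w6, hw6, G6, N6, z6, k6, b6, c6e, c6f, c6g, c6i, c6⟩ :=
    st2 hE hg (hγd 6) hie.1 hie.2.1 hie.2.2.1 r6
  have V7 : ∀ j, g.V ((f 7).1 j) := by
    intro j
    by_cases h1 : j = e
    · rw [h1, c6e]; exact shV a6 ha6 _ (V6 _)
    by_cases h2 : j = e + 1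
    · rw [h2, c6f]; exact shl_V hg _ (rpK 5 y6 hy6) _ (V6 _)
    by_cases h3 : j = e + 2
    · rw [h3, c6g]; exact shl_V hg _ (rpK 9 w6 hw6) _ (V6 _)
    by_cases h4 : j = i
    · rw [h4, c6i]; exact app_V hg (hT1 _ _ _ _ _) (V6 _) k6
    rw [c6 j h1 h2 h3 h4]
    exact V6 j
  -- phase 7
  have r7 : Rn g tst t q c (3, 1, e, e + 1, v, e + 3, 1) ((q + 1) * m + u)
      (fun τ => γ (7 * 13 ^ ((q + 1) * m + u) + τ)) ((f 7).1, (f 7).2) = some (f 8) :=
    hf 7 (by norm_num)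
  obtain ⟨a7, ha7, y7, hy7, G7, N7, z7, k7, b7, c7e, c7f, c7z, c7⟩ := st1 hE hg (hγd 7) r7
  have k7' : z7 = g.hd (t 1 v a7 y7 0) ((f 7).1 (e + 3)) := (Option.some.inj k7).symm
  have V8 : ∀ j, g.V ((f 8).1 j) := val4 V7 (by rw [c7e]; exact shV a7 ha7 _ (V7 _))
    (by rw [c7f]; exact shV y7 hy7 _ (V7 _))
    (by rw [c7z]; exact app_V hg (hT1 _ _ _ _ _) (V7 _) k7) c7
  -- phase 8
  have r8 : Rn g tst t q c (nod (2 * v + 1) (e + 2) 2) ((q + 1) * m + u)
      (fun τ => γ (8 * 13 ^ ((q + 1) * m + u) + τ)) ((f 8).1, (f 8).2) = some (f 9) :=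
    hf 8 (by norm_num)
  obtain ⟨b8, V9, fr8, ex8⟩ := KX' _ _ _ _ _ _ _ _ _ (hγd 8) V8 (hT1 1 v a7 y7 0)
    (V7 (e + 3)) (by rw [c7z, k7']) (Or.inl (by omega)) r8
  -- phase 9
  have r9 : Rn g tst t q c (3, 1, e, e + 1, v, e + 3, 2) ((q + 1) * m + u)
      (fun τ => γ (9 * 13 ^ ((q + 1) * m + u) + τ)) ((f 9).1, (f 9).2) = some (f 10) :=
    hf 9 (by norm_num)
  obtain ⟨a9, ha9, y9, hy9, G9, N9, z9, k9, b9, c9e, c9f, c9z, c9⟩ := st1 hE hg (hγd 9) r9
  have V10 : ∀ j, g.V ((f 10).1 j) := val4 V9 (by rw [c9e]; exact shV a9 ha9 _ (V9 _))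
    (by rw [c9f]; exact shV y9 hy9 _ (V9 _))
    (by rw [c9z]; exact app_V hg (hT1 _ _ _ _ _) (V9 _) k9) c9
  -- phase 10
  have r10 : Rn g tst t q c (3, 0, e, 0, v, e + 3, 1) ((q + 1) * m + u)
      (fun τ => γ (10 * 13 ^ ((q + 1) * m + u) + τ)) ((f 10).1, (f 10).2) = some (f 11) :=
    hf 10 (by norm_num)
  obtain ⟨a10, ha10, G10, N10, z10, k10, b10, c10e, c10z, c10⟩ := st0 hE hg (hγd 10) r10
  have k10' : z10 = g.hd (t 0 v a10 0 0) ((f 10).1 (e + 3)) := (Option.some.inj k10).symm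
  have V11 : ∀ j, g.V ((f 11).1 j) := val3 V10 (by rw [c10e]; exact shV a10 ha10 _ (V10 _))
    (by rw [c10z]; exact app_V hg (hT1 _ _ _ _ _) (V10 _) k10) c10
  -- phase 11
  have r11 : Rn g tst t q c (nod (2 * v) (e + 1) 2) ((q + 1) * m + u)
      (fun τ => γ (11 * 13 ^ ((q + 1) * m + u) + τ)) ((f 11).1, (f 11).2) = some (f 12) :=
    hf 11 (by norm_num)
  obtain ⟨b11, V12, fr11, ex11⟩ := KX' _ _ _ _ _ _ _ _ _ (hγd 11) V11 (hT1 0 v a10 0 0)
    (V10 (e + 3)) (by rw [c10z, k10']) (Or.inl (by omega)) r11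
  -- phase 12
  have r12 : Rn g tst t q c (3, 0, e, 0, v, e + 3, 2) ((q + 1) * m + u)
      (fun τ => γ (12 * 13 ^ ((q + 1) * m + u) + τ)) ((f 12).1, (f 12).2) = some s' := by
    have := hf 12 (by norm_num)
    rw [hf13] at this
    exact this
  obtain ⟨a12, ha12, G12, N12, z12, k12, b12, c12e, c12z, c12⟩ := st0 hE hg (hγd 12) r12
  have V13 : ∀ j, g.V (s'.1 j) := val3 V12 (by rw [c12e]; exact shV a12 ha12 _ (V12 _))
    (by rw [c12z]; exact app_V hg (hT1 _ _ _ _ _) (V12 _) k12) c12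
  have hE13 : s'.1 e = shl g [a0, a2, a3, a5, a6, a7, a9, a10, a12] (C e) := by
    rw [c12e, fr11 e (by omega) (by omega), c10e, c9e, fr8 e (by omega) (by omega), c7e, c6e,
      c5e, fr4 e (by omega) (by omega), c3e, c2e, fr1 e (by omega) (by omega), c0e]
    rfl
  refine ⟨by rw [b12, b11, b10, b9, b8, b7, b6, b5, b4, b3, b2, b1, b0], V13, ?_, ?_⟩
  · intro j hj hji
    rw [c12 j (by omega) (by omega), fr11 j (by omega) (by omega),
      c10 j (by omega) (by omega), c9 j (by omega) (by omega) (by omega),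
      fr8 j (by omega) (by omega), c7 j (by omega) (by omega) (by omega),
      c6 j (by omega) (by omega) (by omega) hji, c5 j (by omega) (by omega) (by omega),
      fr4 j (by omega) (by omega), c3 j (by omega) (by omega) (by omega),
      c2 j (by omega) (by omega), fr1 j (by omega) (by omega), c0 j (by omega) (by omega)]
  · intro hun
    rw [hE13, hCe] at hun
    have hl := hg.sound9 x hx _ rfl (by
      intro a ha
      simp only [List.mem_cons, List.not_mem_nil, or_false] at ha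
      rcases ha with rfl | rfl | rfl | rfl | rfl | rfl | rfl | rfl | rfl <;> assumption) _ hz₀
      hun
    have e0 : a0 = x := hl a0 (by simp)
    have e2 : a2 = x := hl a2 (by simp)
    have e3 : a3 = x := hl a3 (by simp)
    have e5 : a5 = x := hl a5 (by simp)
    have e6 : a6 = x := hl a6 (by simp)
    have e7 : a7 = x := hl a7 (by simp)
    have e9 : a9 = x := hl a9 (by simp)
    have e10 : a10 = x := hl a10 (by simp)
    have e12 : a12 = x := hl a12 (by simp)
    have hE13' : s'.1 e = shl g (List.replicate 9 x) (C e) := by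
      rw [hE13, e0, e2, e3, e5, e6, e7, e9, e10, e12]
      rfl
    rw [e0] at k0' ex1 G0
    rw [e2] at k2 G2
    rw [e3] at k3' ex4 G3
    rw [e5] at k5 G5
    rw [e6] at k6 G6
    rw [e7] at k7' ex8 G7
    rw [e9] at k9 G9
    rw [e10] at k10' ex11 G10
    rw [e12] at k12 G12
    set p0 : ℕ := t 0 v x 0 0 with hp0
    have hp0K : p0 < g.K := hT1 _ _ _ _ _
    set y0 : ℕ := ev t q c (q * m + u) (2 * v) p0 with hy0
    have hy0K : y0 < g.K := ev_lt hT1 _ _ _
    -- phases 0, 1, 2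
    have u2 : g.un p0 ((f 2).1 (e + 3)) = some z2 := k2
    obtain ⟨X1, w1, kw1, C2⟩ := ex1 (by rw [u2]; rfl)
    have kw1' : w1 = g.hd y0 ((f 1).1 (e + 1)) := (Option.some.inj kw1).symm
    rw [c0 (e + 1) (by omega) (by omega)] at kw1'
    have ez2 : z2 = C (e + 3) := by
      rw [C2, Function.update_self, c0z, k0'] at u2
      exact undo' hg hp0K (hV _) u2
    have d2 : ∀ j, j ≠ e + 1 → j ≠ e + 3 → (f 2).1 j = (f 1).1 j := by
      intro j h1 h2
      rw [C2, Function.update_of_ne h2, Function.update_of_ne h1]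
    have d2' : (f 2).1 (e + 1) = g.hd y0 (C (e + 1)) := by
      rw [C2, Function.update_of_ne (by omega), Function.update_self, kw1']
    have d3' : (f 3).1 (e + 1) = g.hd y0 (C (e + 1)) := by
      rw [c2 (e + 1) (by omega) (by omega), d2']
    have d3 : (f 3).1 (e + 3) = C (e + 3) := by rw [c2z, ez2]
    -- phases 10, 11, 12
    have u12 : g.un p0 ((f 12).1 (e + 3)) = some z12 := k12
    obtain ⟨X11, w11, kw11, C12⟩ := ex11 (by rw [u12]; rfl)
    have ez12 : z12 = (f 10).1 (e + 3) := by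
      rw [C12, Function.update_self, c10z, k10'] at u12
      exact undo' hg hp0K (V10 _) u12
    have u11 : g.un y0 ((f 11).1 (e + 1)) = some w11 := kw11
    have h11 : (f 11).1 (e + 1) = shl g [y3, y5, y6, y6, y6, y6, y6, y7, y9]
        (g.hd y0 (C (e + 1))) := by
      rw [c10 (e + 1) (by omega) (by omega), c9f, fr8 (e + 1) (by omega) (by omega), c7f, c6f,
        c5f, fr4 (e + 1) (by omega) (by omega), c3f, d3']
      rfl
    rw [h11] at u11
    obtain ⟨aly, ew11⟩ := undo hg hy0K rfl (by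
      intro a ha
      simp only [List.mem_cons, List.not_mem_nil, or_false] at ha
      rcases ha with rfl | rfl | rfl | rfl | rfl | rfl | rfl | rfl | rfl <;> assumption)
      (hV _) u11
    have ey3 : y3 = y0 := aly y3 (by simp)
    have ey5 : y5 = y0 := aly y5 (by simp)
    have ey6 : y6 = y0 := aly y6 (by simp)
    have ey7 : y7 = y0 := aly y7 (by simp)
    have ey9 : y9 = y0 := aly y9 (by simp)
    rw [ey3] at k3' ex4 G3
    rw [ey5] at k5 G5
    rw [ey6] at k6 G6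
    rw [ey7] at k7' ex8 G7
    rw [ey9] at k9 G9
    set p1 : ℕ := t 1 v x y0 0 with hp1
    have hp1K : p1 < g.K := hT1 _ _ _ _ _
    set y1 : ℕ := ev t q c (q * m + u) (2 * v + 1) p1 with hy1
    have hy1K : y1 < g.K := ev_lt hT1 _ _ _
    -- phases 3, 4, 5
    have u5 : g.un p1 ((f 5).1 (e + 3)) = some z5 := k5
    obtain ⟨X4, w4, kw4, C5⟩ := ex4 (by rw [u5]; rfl)
    have kw4' : w4 = g.hd y1 ((f 4).1 (e + 2)) := (Option.some.inj kw4).symm
    have ez5 : z5 = C (e + 3) := by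
      rw [C5, Function.update_self, c3z, k3'] at u5
      rw [undo' hg hp1K (V3 _) u5, d3]
    have d4 : (f 4).1 (e + 2) = C (e + 2) := by
      rw [c3 (e + 2) (by omega) (by omega) (by omega), c2 (e + 2) (by omega) (by omega),
        d2 (e + 2) (by omega) (by omega), c0 (e + 2) (by omega) (by omega)]
    have d6 : (f 6).1 (e + 2) = g.hd y1 (C (e + 2)) := by
      rw [c5 (e + 2) (by omega) (by omega) (by omega), C5,
        Function.update_of_ne (by omega), Function.update_self, kw4', d4]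
    -- phases 7, 8, 9
    have u9 : g.un p1 ((f 9).1 (e + 3)) = some z9 := k9
    obtain ⟨X8, w8, kw8, C9⟩ := ex8 (by rw [u9]; rfl)
    have u8 : g.un y1 ((f 8).1 (e + 2)) = some w8 := kw8
    rw [c7 (e + 2) (by omega) (by omega) (by omega), c6g, d6] at u8
    obtain ⟨alz, ew8⟩ := undo hg hy1K (List.length_replicate) (rpK 9 w6 hw6) (hV _) u8
    have ew6 : w6 = y1 := alz w6 (by simp)
    have d7 : (f 7).1 (e + 3) = C (e + 3) := by
      rw [c6 (e + 3) (by omega) (by omega) (by omega) (Ne.symm hie.2.2.2), c5z, ez5]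
    have ez9 : z9 = C (e + 3) := by
      rw [C9, Function.update_self, c7z, k7'] at u9
      rw [undo' hg hp1K (V7 _) u9, d7]
    rw [ew6] at k6 G6
    -- values outside
    have o6 : ∀ j, j ≠ e → j ≠ e + 1 → j ≠ e + 2 → j ≠ e + 3 → (f 6).1 j = C j := by
      intro j h0 h1 h2 h3
      rw [c5 j h0 h1 h3, C5, Function.update_of_ne h3, Function.update_of_ne h2, c3 j h0 h1 h3,
        c2 j h0 h3, d2 j h1 h3, c0 j h0 h3]
    have o13 : ∀ j, j ≠ e → j ≠ e + 1 → j ≠ e + 2 → j ≠ e + 3 → s'.1 j = (f 7).1 j := by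
      intro j h0 h1 h2 h3
      rw [c12 j h0 h3, C12, Function.update_of_ne h3, Function.update_of_ne h1, c10 j h0 h3,
        c9 j h0 h1 h3, C9, Function.update_of_ne h3, Function.update_of_ne h2, c7 j h0 h1 h3]
    have hev : ev t q c (q * m + (u + 1)) v x = t 2 v x y0 y1 := by
      have h3 : (q * m + u) % q = u := by
        rw [Nat.mul_add_mod, Nat.mod_eq_of_lt huq]
      have h4 : ∀ y, cut q c (q * m + u) y = y := fun y => if_neg (by rw [h3]; omega)
      change t 2 v x (ev t q c (q * m + u) (2 * v) (cut q c (q * m + u) (t 0 v x 0 0)))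
        (ev t q c (q * m + u) (2 * v + 1) (cut q c (q * m + u) (t 1 v x
          (ev t q c (q * m + u) (2 * v) (cut q c (q * m + u) (t 0 v x 0 0))) 0))) = _
      rw [h4, h4]
    refine ⟨?_, z6, ?_, ?_⟩
    · intro τ hτ
      have hτ' : τ < 13 * 13 ^ ((q + 1) * m + u) := by
        have h5 : 13 ^ ((q + 1) * m + (u + 1)) = 13 * 13 ^ ((q + 1) * m + u) := by
          rw [← add_assoc, pow_succ, mul_comm]
        rw [← h5]
        exact hτ
      have hd : τ / 13 ^ ((q + 1) * m + u) < 13 := by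
        rw [Nat.div_lt_iff_lt_mul (by positivity)]
        exact hτ'
      have hm : τ % 13 ^ ((q + 1) * m + u) < 13 ^ ((q + 1) * m + u) :=
        Nat.mod_lt _ (by positivity)
      have hdm : τ / 13 ^ ((q + 1) * m + u) * 13 ^ ((q + 1) * m + u) +
          τ % 13 ^ ((q + 1) * m + u) = τ := by
        rw [mul_comm]
        exact Nat.div_add_mod _ _
      rw [← hdm]
      generalize τ / 13 ^ ((q + 1) * m + u) = d at hd ⊢
      generalize τ % 13 ^ ((q + 1) * m + u) = τ' at hm ⊢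
      change γ (d * 13 ^ ((q + 1) * m + u) + τ') =
        can g.K t q c ((q + 1) * m + u + 1) v x (d * 13 ^ ((q + 1) * m + u) + τ')
      rw [can_succ g.K t q c m u v x d τ' hu huq hm]
      rcases Nat.eq_zero_or_pos τ' with h0 | h0
      · subst h0
        interval_cases d
        · rw [G0]; norm_num
        · rw [if_pos (by norm_num)]; exact X1 0 hm
        · rw [G2]; norm_num
        · rw [G3]; norm_num [← hy0, ← hp0]
        · rw [if_neg (by norm_num), if_pos (by norm_num)]; exact X4 0 hm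
        · rw [G5]; norm_num [← hy0, ← hp0]
        · rw [G6]; norm_num [← hy0, ← hp0, ← hy1, ← hp1]
        · rw [G7]; norm_num [← hy0, ← hp0]
        · rw [if_neg (by norm_num), if_pos (by norm_num)]; exact X8 0 hm
        · rw [G9]; norm_num [← hy0, ← hp0]
        · rw [G10]; norm_num
        · rw [if_pos (by norm_num)]; exact X11 0 hm
        · rw [G12]; norm_num
      · interval_cases d
        · rw [N0 τ' h0 hm]; simp [h0.ne']
        · rw [if_pos (by norm_num)]; exact X1 τ' hm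
        · rw [N2 τ' h0 hm]; simp [h0.ne']
        · rw [N3 τ' h0 hm]; simp [h0.ne']
        · rw [if_neg (by norm_num), if_pos (by norm_num)]; exact X4 τ' hm
        · rw [N5 τ' h0 hm]; simp [h0.ne']
        · rw [N6 τ' h0 hm]; simp [h0.ne']
        · rw [N7 τ' h0 hm]; simp [h0.ne']
        · rw [if_neg (by norm_num), if_pos (by norm_num)]; exact X8 τ' hm
        · rw [N9 τ' h0 hm]; simp [h0.ne']
        · rw [N10 τ' h0 hm]; simp [h0.ne']
        · rw [if_pos (by norm_num)]; exact X11 τ' hm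
        · rw [N12 τ' h0 hm]; simp [h0.ne']
    · rw [hev, ← o6 i hie.1 hie.2.1 hie.2.2.1 hie.2.2.2]
      exact k6
    · funext j
      by_cases h1 : j = e
      · rw [h1, Function.update_self]
        exact hE13'
      rw [Function.update_of_ne h1]
      by_cases h2 : j = e + 3
      · rw [h2, Function.update_of_ne (Ne.symm hie.2.2.2), c12z, ez12, c9z, ez9]
      by_cases h3 : j = e + 1
      · rw [h3, Function.update_of_ne (Ne.symm hie.2.1), c12 (e + 1) (by omega) (by omega), C12,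
          Function.update_of_ne (by omega), Function.update_self, ew11]
      by_cases h4 : j = e + 2
      · rw [h4, Function.update_of_ne (Ne.symm hie.2.2.1), c12 (e + 2) (by omega) (by omega),
          C12, Function.update_of_ne (by omega), Function.update_of_ne (by omega),
          c10 (e + 2) (by omega) (by omega), c9 (e + 2) (by omega) (by omega) (by omega), C9,
          Function.update_of_ne (by omega), Function.update_self, ew8]
      rw [o13 j h1 h3 h4 h2]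
      by_cases h5 : j = i
      · rw [h5, Function.update_self, c6i]
      · rw [Function.update_of_ne h5, c6 j h1 h3 h4 h5, o6 j h1 h3 h4 h2]

end Pool.Agent.Helper20.CTG
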